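import Pool.Agent.H552R3.KG.Main

set_option autoImplicit false

/-! Problem MP_de6bcb_lc, Q1: if `A ⊕ B ≤_LR B` and `B` is `A`-random, then `A` is K-trivial. -/

namespace Pool.Agent.Results.MP_de6bcb_lc.LRImpliesKTrivial

open Pool.Agent.Helper227

/-- `C ≤_LR D`: every set which is Martin-Löf random relative to `D` is Martin-Löf random relative
to `C`. -/
def LRLe (C D : ℕ → Bool) : Prop := ∀ X : ℕ → Bool, MLR D X → MLR C X

/-- Let `U` be any universal prefix-free machine, and let `A`, `B` be sets of natural numbers with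
`A ⊕ B ≤_LR B` such that `B` is `A`-random. Then `A` is K-trivial. -/
theorem result (U : List Bool →. List Bool) (hU : IsUniversal U) (A B : ℕ → Bool)
    (hLR : LRLe (join A B) B) (hB : MLR A B) : KTrivial U A :=
  Pool.Agent.H552R3.KG.main U hU A B hLR hB

end Pool.Agent.Results.MP_de6bcb_lc.LRImpliesKTrivial
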